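import Pool.Agent.Q141.CP.Stm

set_option autoImplicit false

namespace Pool.Agent.Q141.CP.SPRd

open Finset

section W

variable {ε : Type} [DecidableEq ε]

/-- Sums over the subsets of a disjoint union. -/
lemma sum_union (A B : Finset ε) (hAB : Disjoint A B) (g : Finset ε → ℝ) :
    ∑ F ∈ (A ∪ B).powerset, g F = ∑ F₁ ∈ A.powerset, ∑ F₂ ∈ B.powerset, g (F₁ ∪ F₂) := by
  rw [← Finset.sum_product']
  symm
  refine Finset.sum_nbij' (fun x => x.1 ∪ x.2) (fun F => (F ∩ A, F ∩ B)) ?_ ?_ ?_ ?_ ?_
  · intro x hx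
    rw [mem_product, mem_powerset, mem_powerset] at hx
    rw [mem_powerset]
    exact union_subset_union hx.1 hx.2
  · intro F _
    rw [mem_product, mem_powerset, mem_powerset]
    exact ⟨inter_subset_right, inter_subset_right⟩
  · intro x hx
    rw [mem_product, mem_powerset, mem_powerset] at hx
    obtain ⟨h1, h2⟩ := hx
    refine Prod.ext ?_ ?_
    · ext e
      have := @h1 e
      have := @h2 e
      have h3 : e ∈ A → e ∉ B := fun h => Finset.disjoint_left.1 hAB h
      simp only [mem_inter, mem_union]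
      tauto
    · ext e
      have := @h1 e
      have := @h2 e
      have h3 : e ∈ A → e ∉ B := fun h => Finset.disjoint_left.1 hAB h
      simp only [mem_inter, mem_union]
      tauto
  · intro F hF
    rw [mem_powerset] at hF
    change (F ∩ A) ∪ (F ∩ B) = F
    rw [← inter_union_distrib_left]
    exact inter_eq_left.2 hF
  · intro x _
    rfl

lemma wt_nonneg {p : ℝ} (h0 : 0 ≤ p) (h1 : p ≤ 1) (E F : Finset ε) : 0 ≤ wt p E F := by
  unfold wt
  have : 0 ≤ 1 - p := by linarith
  positivity

lemma wt_sum (p : ℝ) (B : Finset ε) : ∑ F ∈ B.powerset, wt p B F = 1 := by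
  have := Finset.sum_pow_mul_eq_add_pow p (1 - p) B
  rw [show p + (1 - p) = 1 by ring, one_pow] at this
  rw [← this]
  refine sum_congr rfl fun F hF => ?_
  rw [mem_powerset] at hF
  unfold wt
  rw [card_sdiff_of_subset hF]

lemma wt_union (p : ℝ) (A B F₁ F₂ : Finset ε) (hAB : Disjoint A B) (h1 : F₁ ⊆ A) (h2 : F₂ ⊆ B) :
    wt p (A ∪ B) (F₁ ∪ F₂) = wt p A F₁ * wt p B F₂ := by
  have e1 : (F₁ ∪ F₂).card = F₁.card + F₂.card :=
    card_union_of_disjoint (hAB.mono h1 h2)
  have e2 : (A ∪ B) \ (F₁ ∪ F₂) = (A \ F₁) ∪ (B \ F₂) := by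
    ext e
    have := @h1 e
    have := @h2 e
    have h3 : e ∈ A → e ∉ B := fun h => Finset.disjoint_left.1 hAB h
    simp only [mem_sdiff, mem_union]
    tauto
  have e3 : ((A \ F₁) ∪ (B \ F₂)).card = (A \ F₁).card + (B \ F₂).card :=
    card_union_of_disjoint (hAB.mono sdiff_subset sdiff_subset)
  unfold wt
  rw [e1, e2, e3, pow_add, pow_add]
  ring

/-- The subsets which contain `T` have weight `q ^ |T|` together. -/
lemma above {q : ℝ} (h0 : 0 ≤ q) (h1 : q ≤ 1) (I T : Finset ε) (hT : T ⊆ I) :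
    q ^ T.card ≤ ∑ H ∈ I.powerset, if T ⊆ H then wt q I H else 0 := by
  have hI : T ∪ (I \ T) = I := union_sdiff_of_subset hT
  have hd : Disjoint T (I \ T) := disjoint_sdiff
  have hnn : ∀ H : Finset ε, 0 ≤ (if T ⊆ H then wt q I H else 0) := by
    intro H
    split_ifs
    · exact wt_nonneg h0 h1 _ _
    · exact le_rfl
  have h2 := sum_union T (I \ T) hd (fun H => if T ⊆ H then wt q I H else 0)
  rw [hI] at h2
  rw [h2]
  have h3 : ∑ H₂ ∈ (I \ T).powerset, (if T ⊆ T ∪ H₂ then wt q I (T ∪ H₂) else 0) ≤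
      ∑ H₁ ∈ T.powerset, ∑ H₂ ∈ (I \ T).powerset,
        (if T ⊆ H₁ ∪ H₂ then wt q I (H₁ ∪ H₂) else 0) :=
    Finset.single_le_sum (f := fun H₁ : Finset ε => ∑ H₂ ∈ (I \ T).powerset,
      (if T ⊆ H₁ ∪ H₂ then wt q I (H₁ ∪ H₂) else 0)) (fun H₁ _ => sum_nonneg fun H₂ _ => hnn _)
      (mem_powerset_self T)
  refine le_trans (le_of_eq ?_) h3
  have h4 : ∀ H₂ ∈ (I \ T).powerset, (if T ⊆ T ∪ H₂ then wt q I (T ∪ H₂) else 0) =
      q ^ T.card * wt q (I \ T) H₂ := by
    intro H₂ h2
    rw [if_pos subset_union_left]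
    rw [mem_powerset] at h2
    have h5 := wt_union q T (I \ T) T H₂ hd (Subset.refl _) h2
    rw [hI] at h5
    have h6 : wt q T T = q ^ T.card := by
      unfold wt
      rw [sdiff_self]
      simp
    rw [h5, h6]
  rw [sum_congr rfl h4, ← Finset.mul_sum, wt_sum, mul_one]

/-- Sums over the subsets which meet all blocks. -/
lemma blocks {α : Type} [DecidableEq α] {p : ℝ} (f : α → Finset ε) (W : Finset α) :
    ∀ I : Finset ε, (∀ x ∈ W, f x ⊆ I) → (∀ x ∈ W, ∀ y ∈ W, x ≠ y → Disjoint (f x) (f y)) →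
      ∑ F ∈ I.powerset, (if ∀ x ∈ W, (F ∩ f x).Nonempty then wt p I F else 0) =
        ∏ x ∈ W, (1 - (1 - p) ^ (f x).card) := by
  classical
  induction W using Finset.induction_on with
  | empty =>
    intro I _ _
    rw [prod_empty, ← wt_sum p I]
    refine sum_congr rfl fun F _ => ?_
    rw [if_pos]
    intro x hx
    simp at hx
  | insert a W ha ih =>
    intro I hI hd
    have hI' : f a ∪ (I \ f a) = I := union_sdiff_of_subset (hI a (mem_insert_self a W))
    have hda : Disjoint (f a) (I \ f a) := disjoint_sdiff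
    have hW : ∀ x ∈ W, f x ⊆ I \ f a := by
      intro x hx
      rw [subset_sdiff]
      refine ⟨hI x (mem_insert_of_mem hx), ?_⟩
      refine hd x (mem_insert_of_mem hx) a (mem_insert_self a W) ?_
      rintro rfl
      exact ha hx
    have hd' : ∀ x ∈ W, ∀ y ∈ W, x ≠ y → Disjoint (f x) (f y) := fun x hx y hy =>
      hd x (mem_insert_of_mem hx) y (mem_insert_of_mem hy)
    rw [prod_insert ha, ← ih (I \ f a) hW hd']
    have hone : ∑ F₁ ∈ (f a).powerset, (if F₁.Nonempty then wt p (f a) F₁ else 0) =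
        1 - (1 - p) ^ (f a).card := by
      have h := wt_sum p (f a)
      rw [← Finset.sum_erase_add _ _ (empty_mem_powerset (f a))] at h ⊢
      rw [if_neg Finset.not_nonempty_empty, add_zero]
      have e : wt p (f a) ∅ = (1 - p) ^ (f a).card := by
        unfold wt
        simp
      rw [e] at h
      have : ∑ F₁ ∈ (f a).powerset.erase ∅, (if F₁.Nonempty then wt p (f a) F₁ else 0) =
          ∑ F₁ ∈ (f a).powerset.erase ∅, wt p (f a) F₁ := by
        refine sum_congr rfl fun F hF => ?_
        rw [if_pos]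
        exact nonempty_iff_ne_empty.2 (ne_of_mem_erase hF)
      rw [this]
      linarith
    rw [← hone, Finset.sum_mul_sum]
    have := sum_union (f a) (I \ f a) hda
      (fun F => if ∀ x ∈ insert a W, (F ∩ f x).Nonempty then wt p I F else 0)
    rw [hI'] at this
    rw [this]
    refine sum_congr rfl fun F₁ h1 => sum_congr rfl fun F₂ h2 => ?_
    rw [mem_powerset] at h1 h2
    have hw := wt_union p (f a) (I \ f a) F₁ F₂ hda h1 h2
    rw [hI'] at hw
    have hiff : (∀ x ∈ insert a W, ((F₁ ∪ F₂) ∩ f x).Nonempty) ↔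
        F₁.Nonempty ∧ ∀ x ∈ W, (F₂ ∩ f x).Nonempty := by
      rw [Finset.forall_mem_insert]
      have e1 : (F₁ ∪ F₂) ∩ f a = F₁ := by
        ext e
        have := @h1 e
        have := @h2 e
        simp only [mem_inter, mem_union, mem_sdiff] at *
        tauto
      rw [e1]
      refine and_congr Iff.rfl ?_
      refine forall₂_congr fun x hx => ?_
      have e2 : (F₁ ∪ F₂) ∩ f x = F₂ ∩ f x := by
        ext e
        have := @h1 e
        have := @hW x hx e
        simp only [mem_inter, mem_union, mem_sdiff] at *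
        tauto
      rw [e2]
    by_cases hA : F₁.Nonempty
    · by_cases hB : ∀ x ∈ W, (F₂ ∩ f x).Nonempty
      · rw [if_pos (hiff.2 ⟨hA, hB⟩), if_pos hA, if_pos hB, hw]
      · rw [if_neg (fun h => hB (hiff.1 h).2), if_neg hB, mul_zero]
    · rw [if_neg (fun h => hA (hiff.1 h).1), if_neg hA, zero_mul]

end W

section C

variable {α ε : Type} [DecidableEq α] [DecidableEq ε]

lemma Lk.symm {en : ε → α × α} {F : Finset ε} {x y : α} (h : Lk en F x y) : Lk en F y x := by
  obtain ⟨e, he, h⟩ := h
  exact ⟨e, he, h.symm⟩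

lemma Lk.mono {en : ε → α × α} {F F' : Finset ε} (hF : F ⊆ F') {x y : α} (h : Lk en F x y) :
    Lk en F' x y := by
  obtain ⟨e, he, h⟩ := h
  exact ⟨e, hF he, h⟩

lemma R.symm {en : ε → α × α} {F : Finset ε} {x y : α}
    (h : Relation.ReflTransGen (Lk en F) x y) : Relation.ReflTransGen (Lk en F) y x := by
  induction h with
  | refl => exact Relation.ReflTransGen.refl
  | tail _ h ih => exact Relation.ReflTransGen.head (Lk.symm h) ih

lemma R.mono {en : ε → α × α} {F F' : Finset ε} (hF : F ⊆ F') {x y : α}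
    (h : Relation.ReflTransGen (Lk en F) x y) : Relation.ReflTransGen (Lk en F') x y :=
  Relation.ReflTransGen.mono (fun _ _ h => Lk.mono hF h) _ _ h

lemma cross {en : ε → α × α} {I : Finset ε} {P : α → Prop} {x y : α}
    (h : Relation.ReflTransGen (Lk en I) x y) (hx : P x) (hy : ¬ P y) :
    ∃ a b, P a ∧ ¬ P b ∧ Lk en I a b := by
  induction h with
  | refl => exact absurd hx hy
  | @tail b c _ h ih =>
    by_cases hb : P b
    · exact ⟨b, c, hb, hy, h⟩
    · exact ih hb


lemma few' (en : ε → α × α) (E : Finset ε) (V : Finset α) (hI : Conn en V (inE en E V)) :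
    ∀ (n : ℕ) (F : Finset ε) (M : Finset α), M.card ≤ n →
      (∀ x ∈ V, ∃ m ∈ M, Relation.ReflTransGen (Lk en F) x m) →
      ∃ T ⊆ inE en E V, T.card ≤ M.card ∧ Conn en V (F ∪ T) := by
  intro n
  induction n with
  | zero =>
    intro F M hM h
    rw [Nat.le_zero, card_eq_zero] at hM
    refine ⟨∅, empty_subset _, by simp, ?_⟩
    intro x hx
    obtain ⟨m, hm, _⟩ := h x hx
    rw [hM] at hm
    simp at hm
  | succ n ih =>
    intro F M hM h
    by_cases hC : Conn en V F
    · exact ⟨∅, empty_subset _, by simp, by rwa [union_empty]⟩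
    · unfold Conn at hC
      push Not at hC
      obtain ⟨v, hv, w, hw, hvw⟩ := hC
      obtain ⟨a, b, ha, hb, e, he, hab⟩ := cross
        (P := fun z => Relation.ReflTransGen (Lk en F) v z) (hI v hv w hw)
        Relation.ReflTransGen.refl hvw
      have hbV : b ∈ V := by
        have he' := he
        rw [inE, mem_filter] at he'
        rcases hab with h' | h'
        · rw [h'] at he'
          exact he'.2.2
        · rw [h'] at he'
          exact he'.2.1
      obtain ⟨m₁, hm₁, hv₁⟩ := h v hv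
      obtain ⟨m₂, hm₂, hb₂⟩ := h b hbV
      have hne : m₁ ≠ m₂ := by
        rintro rfl
        exact hb (hv₁.trans (R.symm hb₂))
      have hcard : (M.erase m₂).card = M.card - 1 := card_erase_of_mem hm₂
      have hpos : 0 < M.card := card_pos.2 ⟨m₂, hm₂⟩
      obtain ⟨T, hT, hTc, hTC⟩ := ih (insert e F) (M.erase m₂) (by omega) (by
        intro x hx
        obtain ⟨m, hm, hxm⟩ := h x hx
        by_cases hmm : m = m₂
        · refine ⟨m₁, mem_erase.2 ⟨hne, hm₁⟩, ?_⟩
          have hs : F ⊆ insert e F := subset_insert e F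
          subst hmm
          refine (R.mono hs hxm).trans ((R.mono hs (R.symm hb₂)).trans ?_)
          refine Relation.ReflTransGen.head (b := a) ?_ ?_
          · exact ⟨e, mem_insert_self e F, hab.symm⟩
          · exact (R.mono hs (R.symm ha)).trans (R.mono hs hv₁)
        · exact ⟨m, mem_erase.2 ⟨hmm, hm⟩, R.mono (subset_insert e F) hxm⟩)
      refine ⟨insert e T, insert_subset he hT, ?_, ?_⟩
      · have := card_insert_le e T
        omega
      · rw [insert_union, ← union_insert] at hTC
        exact hTC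

/-- Downward paths. -/
lemma down (en : ε → α × α) (E : Finset ε) (V : Finset α) (h : α → ℤ) (F : Finset ε)
    (hF : ∀ x ∈ V.filter (fun x => lowE en E V h x ≠ ∅), (F ∩ lowE en E V h x).Nonempty) :
    ∀ (n : ℕ) (x : α), x ∈ V → (V.filter fun z => h z < h x).card ≤ n →
      ∃ m ∈ V.filter (fun x => lowE en E V h x = ∅), Relation.ReflTransGen (Lk en F) x m := by
  intro n
  induction n with
  | zero =>
    intro x hx hn
    refine ⟨x, mem_filter.2 ⟨hx, ?_⟩, Relation.ReflTransGen.refl⟩
    rw [Nat.le_zero, card_eq_zero] at hn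
    rw [eq_empty_iff_forall_notMem]
    intro e he
    rw [lowE, mem_filter, inE, mem_filter] at he
    rcases he.2 with h' | h'
    · have : (en e).2 ∈ V.filter fun z => h z < h x := mem_filter.2 ⟨he.1.2.2, h'.2⟩
      rw [hn] at this
      simp at this
    · have : (en e).1 ∈ V.filter fun z => h z < h x := mem_filter.2 ⟨he.1.2.1, h'.2⟩
      rw [hn] at this
      simp at this
  | succ n ih =>
    intro x hx hn
    by_cases hl : lowE en E V h x = ∅
    · exact ⟨x, mem_filter.2 ⟨hx, hl⟩, Relation.ReflTransGen.refl⟩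
    · obtain ⟨e, he⟩ := hF x (mem_filter.2 ⟨hx, hl⟩)
      rw [mem_inter] at he
      obtain ⟨heF, he⟩ := he
      rw [lowE, mem_filter, inE, mem_filter] at he
      have key : ∃ y ∈ V, h y < h x ∧ Lk en F x y := by
        rcases he.2 with h' | h'
        · refine ⟨(en e).2, he.1.2.2, h'.2, e, heF, Or.inl ?_⟩
          rw [← h'.1]
        · refine ⟨(en e).1, he.1.2.1, h'.2, e, heF, Or.inr ?_⟩
          rw [← h'.1]
      obtain ⟨y, hy, hyx, hxy⟩ := key
      obtain ⟨m, hm, hym⟩ := ih y hy (by
        have : (V.filter fun z => h z < h y) ⊂ (V.filter fun z => h z < h x) := by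
          rw [Finset.ssubset_iff_of_subset]
          · exact ⟨y, mem_filter.2 ⟨hy, hyx⟩, fun h' => lt_irrefl _ (mem_filter.1 h').2⟩
          · intro z hz
            rw [mem_filter] at hz ⊢
            exact ⟨hz.1, hz.2.trans hyx⟩
        have := card_lt_card this
        omega)
      exact ⟨m, hm, Relation.ReflTransGen.head hxy hym⟩

lemma low_disj (en : ε → α × α) (E : Finset ε) (V : Finset α) (h : α → ℤ) (x y : α)
    (hxy : x ≠ y) : Disjoint (lowE en E V h x) (lowE en E V h y) := by
  rw [Finset.disjoint_left]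
  intro e h1 h2
  rw [lowE, mem_filter] at h1 h2
  rcases h1.2 with ⟨a, b⟩ | ⟨a, b⟩ <;> rcases h2.2 with ⟨c, d⟩ | ⟨c, d⟩
  · exact hxy (a.symm.trans c)
  · rw [c] at b
    rw [a] at d
    exact lt_asymm b d
  · rw [c] at b
    rw [a] at d
    exact lt_asymm b d
  · exact hxy (a.symm.trans c)

end C

end SPRd

open Finset SPRd in
theorem t_SPR : S_SPR := by
  classical
  intro α ε _ _ en E V h p q hp0 hp1 hq0 hq1 _ hC
  set I := inE en E V with hIdef
  set M := V.filter fun x => lowE en E V h x = ∅ with hM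
  set V' := V.filter fun x => lowE en E V h x ≠ ∅ with hV'
  rw [← blocks (p := p) (lowE en E V h) V' I (fun x _ => filter_subset _ _)
    (fun x _ y _ hxy => low_disj en E V h x y hxy), Finset.mul_sum]
  unfold conn2
  rw [← hIdef]
  refine sum_le_sum fun F hF => ?_
  by_cases hg : ∀ x ∈ V', (F ∩ lowE en E V h x).Nonempty
  · rw [if_pos hg]
    obtain ⟨T, hT, hTc, hTC⟩ := few' en E V hC M.card F M le_rfl
      (fun x hx => down en E V h F hg _ x hx le_rfl)
    calc q ^ M.card * wt p I F ≤ q ^ T.card * wt p I F := by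
          refine mul_le_mul_of_nonneg_right ?_ (wt_nonneg hp0 hp1 _ _)
          exact pow_le_pow_of_le_one hq0 hq1 hTc
      _ ≤ (∑ H ∈ I.powerset, if T ⊆ H then wt q I H else 0) * wt p I F := by
          refine mul_le_mul_of_nonneg_right ?_ (wt_nonneg hp0 hp1 _ _)
          exact above hq0 hq1 I T hT
      _ ≤ _ := by
          rw [Finset.sum_mul]
          refine sum_le_sum fun H _ => ?_
          by_cases hTH : T ⊆ H
          · rw [if_pos hTH, if_pos, mul_comm]
            intro x hx y hy
            exact R.mono (union_subset_union (Subset.refl F) hTH) (hTC x hx y hy)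
          · rw [if_neg hTH, zero_mul]
            split_ifs
            · exact mul_nonneg (wt_nonneg hp0 hp1 _ _) (wt_nonneg hq0 hq1 _ _)
            · exact le_rfl
  · rw [if_neg hg, mul_zero]
    refine sum_nonneg fun H _ => ?_
    split_ifs
    · exact mul_nonneg (wt_nonneg hp0 hp1 _ _) (wt_nonneg hq0 hq1 _ _)
    · exact le_rfl

end Pool.Agent.Q141.CP
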