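import Mathlib
import Pool.Agent.Q2.TN.Stm

/-! Project TN (helper2), job G6 (helper17). -/

set_option autoImplicit false

namespace Q17.TN_G6

open Subgroup Q2.TN

theorem of_injective (h1 : S_A1) (h2 : S_A2) {p : ℕ} (hp : p.Prime) {A B : Type} [Group A] [Group B]
    [Finite A] [Finite B] (φ : A →* B) (hφ : Function.Injective φ) (hB : IsPNil p B) :
    IsPNil p A := by
  have h := h1 p hp B hB φ.range
  exact h2 p hp φ.range A (φ.ofInjective hφ).symm.toMonoidHom
    (φ.ofInjective hφ).symm.surjective h

/-- **G6** -/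
theorem g6 (h1 : S_A1) (h2 : S_A2) (hd : S_D1) : S_G6 := by
  intro p hp G _ _ R M hRM b hN
  have hmap : (W b (R.subgroupOf M)).map M.subtype = W b R := by
    rw [hd M G M.subtype (R.subgroupOf M) (fun x _ hx => Subtype.ext hx) b, subgroupOf_map_subtype,
      inf_eq_left.2 hRM]
  rw [← hmap] at hN
  let φ : Nm (W b (R.subgroupOf M)) →* Nm ((W b (R.subgroupOf M)).map M.subtype) :=
    (M.subtype.comp (Nm (W b (R.subgroupOf M))).subtype).codRestrict _
      (fun x => le_normalizer_map M.subtype ⟨x, x.2, rfl⟩)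
  apply of_injective h1 h2 hp φ _ hN
  intro x y hxy
  have := congrArg (fun z => (z : G)) (congrArg Subtype.val hxy)
  exact Subtype.ext (Subtype.ext this)

end Q17.TN_G6
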