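import Mathlib
import Pool.Agent.Q2.TN.Stm

/-! Project TN (helper2), job M3 (helper17): subgroups of `p`-supersolvable groups. -/

set_option autoImplicit false

namespace Q17.TN_M3

open Subgroup Q2.TN

theorem exists_min (G : Type) [Group G] [Finite G] [Nontrivial G] :
    ∃ N : Subgroup G, IsChief ⊥ N := by
  obtain ⟨N, hN, hmin⟩ := (Set.toFinite {N : Subgroup G | N.Normal ∧ N ≠ ⊥}).exists_minimal
    ⟨⊤, inferInstance, bot_ne_top.symm⟩
  refine ⟨N, inferInstance, hN.1, bot_lt_iff_ne_bot.2 hN.2, fun L hL _ hLN => ?_⟩
  by_cases h : L = ⊥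
  · exact Or.inl h
  · exact Or.inr (le_antisymm hLN (hmin ⟨hL, h⟩ hLN))

theorem relIndex_ne_one {G : Type} [Group G] {K H : Subgroup G} (h : K < H) :
    K.relIndex H ≠ 1 := by
  intro h1
  exact h.not_ge (relIndex_eq_one.1 h1)

/-- **M3** -/
theorem m3 (h1 : S_M1) (h2 : S_M2) : S_M3 := by
  intro p hp
  suffices H : ∀ n : ℕ, ∀ (G : Type) [Group G] [Finite G], Nat.card G = n → IsPSS p G →
      ∀ M : Subgroup G, IsPSS p M from fun G _ _ hG M => H _ G rfl hG M
  intro n
  induction n using Nat.strong_induction_on with
  | _ n ih =>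
    intro G _ _ hn hG M
    obtain hsub | hnt := subsingleton_or_nontrivial G
    · intro K H hKH
      exact absurd hKH.2.2.1 (by rw [Subsingleton.elim K H]; exact lt_irrefl _)
    · obtain ⟨N, hN⟩ := exists_min G
      have hNn : N.Normal := hN.2.1
      have hcard := hG ⊥ N hN
      rw [relIndex_bot_left] at hcard
      have hQ : IsPSS p (G ⧸ N) := h1 p hp G (G ⧸ N) (QuotientGroup.mk' N)
        (QuotientGroup.mk'_surjective N) hG
      have hlt : Nat.card (G ⧸ N) < n := by
        rw [← hn, ← Subgroup.index_eq_card, ← N.card_mul_index]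
        have hN1 : 1 < Nat.card N := N.one_lt_card_iff_ne_bot.2 hN.2.2.1.ne'
        have h0 : 0 < N.index := Nat.pos_of_ne_zero N.index_ne_zero_of_finite
        nlinarith
      have hM' := ih _ hlt (G ⧸ N) rfl hQ (M.map (QuotientGroup.mk' N))
      have hD : (N.subgroupOf M).Normal := inferInstance
      apply h2 p hp M (N.subgroupOf M)
      · let φ : M →* M.map (QuotientGroup.mk' N) := (QuotientGroup.mk' N).subgroupMap M
        have hφ : Function.Surjective φ := (QuotientGroup.mk' N).subgroupMap_surjective M
        have hker : φ.ker = N.subgroupOf M := by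
          ext x
          rw [MonoidHom.mem_ker, mem_subgroupOf, ← QuotientGroup.eq_one_iff, Subtype.ext_iff]
          rfl
        let e := (QuotientGroup.quotientKerEquivOfSurjective φ hφ).symm.trans
          (QuotientGroup.quotientMulEquivOfEq hker)
        exact h1 p hp _ _ e.toMonoidHom e.surjective hM'
      · intro K H hKH hHD
        have hd : K.relIndex H ∣ Nat.card N := by
          have a1 : K.relIndex H ∣ Nat.card H := relIndex_dvd_card K H
          have a2 : Nat.card H ∣ Nat.card (N.subgroupOf M) := card_dvd_of_le hHD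
          have a3 : Nat.card (N.subgroupOf M) ∣ Nat.card N := by
            rw [← card_map_of_injective (K := N.subgroupOf M) M.subtype_injective]
            exact card_dvd_of_le (by rw [subgroupOf_map_subtype]; exact inf_le_left)
          exact a1.trans (a2.trans a3)
        rcases hcard with hc | hc
        · rw [hc] at hd
          rcases (Nat.dvd_prime hp).1 hd with h | h
          · exact absurd h (relIndex_ne_one hKH.2.2.1)
          · exact Or.inl h
        · exact Or.inr (Nat.Coprime.coprime_dvd_left hd hc)

end Q17.TN_M3
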